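import Pool.Agent.Lib.MP_4fbe7c_an.UL.Iface
import Pool.Agent.Lib.MP_4fbe7c_an.SD.SteadyB

/-!
Project UL (MP_4fbe7c_an), module CRA (helper97): the case `0 < max m ≤ 1.001 min m`.
-/

set_option autoImplicit false

open Set

namespace Pool.Agent.Lib.MP_4fbe7c_an.UL.H97

open Pool.Agent.Lib.MP_4fbe7c_an.SD Pool.Agent.Lib.MP_4fbe7c_an.FC
open Pool.Agent.Lib.MP_4fbe7c_an.UL Pool.Agent.Lib.MP_4fbe7c_an.SD.H95

/-- The steady state is at least the minimum of `m`. -/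
theorem le_steady {L : ℝ} {m : ℝ → ℝ} {d m₀ : ℝ} (hL : 0 < L) (hd : 0 < d)
    (hm₀ : ∀ x ∈ Icc 0 L, m₀ ≤ m x) {θ θ' θ'' : ℝ → ℝ} (hθ : Steady L m d θ θ' θ'') :
    ∀ x ∈ Icc 0 L, m₀ ≤ θ x := by
  obtain ⟨x0, hx0, hmin⟩ := isCompact_Icc.exists_isMinOn (nonempty_Icc.2 hL.le) (st_c0 hθ)
  have h1 : -θ'' x0 ≤ 0 := by
    refine second_deriv_nonpos (g := fun x => -θ x) (g1 := fun x => -θ' x) hL ?_ ?_ ?_ hx0 ?_ ?_
    · intro x hx
      exact (hθ.d1 x hx).neg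
    · simp [hθ.b0]
    · simp [hθ.bL]
    · intro x hx
      have := hmin hx
      simp only [mem_setOf_eq] at this
      linarith
    · exact (hθ.d2 x0 hx0).neg
  have h2 := hθ.eq x0 hx0
  have h3 := hθ.pos x0 hx0
  have h4 : m x0 ≤ θ x0 := by
    by_contra hcon
    push Not at hcon
    have h5 : 0 < θ x0 * (m x0 - θ x0) := mul_pos h3 (by linarith)
    have h6 : 0 ≤ d * θ'' x0 := mul_nonneg hd.le (by linarith)
    linarith
  intro x hx
  have := hmin hx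
  simp only [mem_setOf_eq] at this
  linarith [hm₀ x0 hx0]

/-- Module CRA. -/
theorem cra (h1 : CriStatement) : CraStatement := by
  intro L a₀ b m θ θ' θ'' N d i₀ hL hm hnc hd hdj hθ ha hb hmab
  have hlow : ∀ x ∈ Icc 0 L, a₀ ≤ θ x := le_steady hL hd (fun x hx => (hmab x hx).1) hθ
  have hup : ∀ x ∈ Icc 0 L, θ x ≤ b := steady_le hL hd (fun x hx => (hmab x hx).2) hθ
  refine h1 L a₀ b m θ θ' θ'' N d i₀ hL hm hnc hd hdj hθ ha hb
    (fun x hx => ⟨hlow x hx, hup x hx⟩) (fun x hx => ?_)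
  have h2 := zeta_sq_le hL hd (fun x hx => (hmab x hx).2) (fun x hx => (hmab x hx).1) hθ x hx
  have h3 := hlow x hx
  linarith

end Pool.Agent.Lib.MP_4fbe7c_an.UL.H97
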